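import Pool.Agent.Y466.TQ.Stm2
import Pool.Agent.Y466.TW.Step
import Pool.Agent.Y466.KS.Sum
import Pool.Agent.Y465.TW.FIN
import Pool.Agent.Y217.KS.DIAG
import Pool.Agent.Y143.KS.MIL
import Pool.Agent.Y131.KS.GS

/-! # Unimodular classes on tori with quadratically growing signature: assembly -/

set_option autoImplicit false
set_option synthInstance.maxSize 100000

namespace Pool.Agent.Y466.TQ

open Matrix
open scoped Kronecker
open Pool.Agent.Y466.TW (P Alt gram CONGA CONGB PRODA TEIGHT STEP AData SP Typ Cong prodL EH Hyp)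
open Pool.Agent.Results.MP_69cf13_gt.EEightPlusTenH (Coh H T IsFormOf IsZBasis)

theorem sub : SUB := fun _ _ _ _ _ _ A e => Pool.Agent.Y466.KS.sig_reindex e.symm A

/-- transport of increasing pairs -/
def pairs {ι κ : Type} [LinearOrder ι] [LinearOrder κ] (f : ι ≃o κ) : P ι ≃ P κ where
  toFun p := ⟨(f p.1.1, f p.1.2), f.lt_iff_lt.2 p.2⟩
  invFun p := ⟨(f.symm p.1.1, f.symm p.1.2), f.symm.lt_iff_lt.2 p.2⟩
  left_inv p := by
    apply Subtype.ext
    simp
  right_inv p := by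
    apply Subtype.ext
    simp

lemma sig_inst {ι : Type} (f f' : Fintype ι) (d d' : DecidableEq ι) (G : Matrix ι ι ℤ) :
    @signature ι f d G = @signature ι f' d' G := by
  have e1 : f = f' := Subsingleton.elim _ _
  have e2 : d = d' := Subsingleton.elim _ _
  subst e1
  subst e2
  rfl

theorem eight {r : ℕ} (G : Matrix (Fin r) (Fin r) ℤ) (hs : G.IsSymm) (he : ∀ i, Even (G i i))
    (hd : |G.det| = 1) : (8 : ℤ) ∣ signature G := by
  have h0 : G.det ≠ 0 := by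
    intro h
    rw [h] at hd
    norm_num at hd
  obtain ⟨P, a, p1, p2, p3, p4⟩ := Pool.Agent.Y217.KS.diag r G hs he h0
  have h1 : signature G = ∑ i, (a i).sign := p4
  rw [h1]
  exact Pool.Agent.Y143.KS.mil Pool.Agent.Y131.KS.gs r G P a hs he hd p1 p2 p3

theorem det_of_inv {ι : Type} [Fintype ι] [DecidableEq ι] {G X : Matrix ι ι ℤ} (h : G * X = 1) :
    |G.det| = 1 := by
  have h4 := congrArg Matrix.det h
  rw [det_mul, det_one] at h4
  exact Int.isUnit_iff_abs_eq.1 (IsUnit.of_mul_eq_one _ h4)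

/-- from an antisymmetric function on an ordered set to a class -/
theorem gen (hf : FIN) {ι : Type} [Fintype ι] [LinearOrder ι] (n : ℕ) (hn : 4 ≤ n)
    (hcard : Fintype.card ι = n) (w : ι → ι → ι → ι → ℤ) (hA : Alt w)
    (X : Matrix (P ι) (P ι) ℤ) (hX : gram w * X = 1) :
    ∃ ω ∈ H n (n - 4), ∃ φ : Coh n → Coh n → ℤ, IsFormOf (H n 2) ω (T n) φ ∧
      ∃ b : Fin (n.choose 2) → Coh n, IsZBasis (H n 2) b ∧
        |(Matrix.of fun i j => φ (b i) (b j)).det| = 1 ∧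
        signature (Matrix.of fun i j => φ (b i) (b j)) = signature (gram w) ∧
        (8 : ℤ) ∣ signature (gram w) := by
  set f : Fin n ≃o ι := Fintype.orderIsoFinOfCardEq _ hcard with hf0
  set w' : Fin n → Fin n → Fin n → Fin n → ℤ :=
    fun i j k l => w (f i) (f j) (f k) (f l) with hw'
  have hA' : Alt w' := ⟨fun i j k l => hA.1 _ _ _ _, fun i j k l => hA.2.1 _ _ _ _,
    fun i j k l => hA.2.2 _ _ _ _⟩
  have hg : gram w' = (gram w).submatrix (pairs f) (pairs f) := rfl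
  have hgX : gram w' * X.submatrix (pairs f) (pairs f) = 1 := by
    rw [hg, submatrix_mul_equiv, hX, submatrix_one_equiv]
  obtain ⟨ω, hω, φ, hφ, b, e', hb, hbG⟩ := hf n w' hn hA' ⟨_, hgX⟩
  have hG : (Matrix.of fun i j => φ (b i) (b j)) =
      (gram w).submatrix (e'.trans (pairs f)) (e'.trans (pairs f)) := by
    ext i j
    rw [Matrix.of_apply, hbG, hg]
    rfl
  have hsig : signature (Matrix.of fun i j => φ (b i) (b j)) = signature (gram w) := by
    rw [hG]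
    exact sub _ _ _ _
  have hdet : |(Matrix.of fun i j => φ (b i) (b j)).det| = 1 := by
    rw [hG, det_submatrix_equiv_self]
    exact det_of_inv hX
  refine ⟨ω, hω, φ, hφ, b, hb, hdet, hsig, ?_⟩
  rw [← hsig]
  refine eight _ ?_ ?_ hdet
  · rw [hG]
    unfold Matrix.IsSymm
    rw [transpose_submatrix, hA.gram_symm]
  · intro i
    rw [hG]
    have h1 : (gram w).submatrix (e'.trans (pairs f)) (e'.trans (pairs f)) i i = 0 := by
      generalize hp : (e'.trans (pairs f)) i = p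
      rw [submatrix_apply, hp]
      change w p.1.1 p.1.2 p.1.1 p.1.2 = 0
      have h2 := hA.2.1 p.1.1 p.1.1 p.1.2 p.1.2
      have h3 := hA.1 p.1.1 p.1.1 p.1.2 p.1.2
      have h4 := hA.2.1 p.1.1 p.1.2 p.1.1 p.1.2
      omega
    rw [h1]
    exact ⟨0, rfl⟩

theorem inv_of_cong {α β : Type} [Fintype α] [DecidableEq α] [Fintype β] [DecidableEq β]
    {G : Matrix α α ℤ} {G' : Matrix β β ℤ} (h : Cong G G') (h' : ∃ X, G' * X = 1) :
    ∃ X, G * X = 1 := by
  obtain ⟨Q, R, h1, h2, h3⟩ := h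
  obtain ⟨X, hX⟩ := h'
  have hG : G = Rᵀ * G' * R := by
    rw [← h3]
    calc G = (Q * R)ᵀ * G * (Q * R) := by rw [h1]; simp
      _ = Rᵀ * (Qᵀ * G * Q) * R := by
        rw [transpose_mul]
        simp only [Matrix.mul_assoc]
  refine ⟨Q * X * Qᵀ, ?_⟩
  calc G * (Q * X * Qᵀ) = Rᵀ * (G' * ((R * Q) * X)) * Qᵀ := by
        rw [hG]
        simp only [Matrix.mul_assoc]
    _ = (Q * R)ᵀ := by
        rw [h2, Matrix.one_mul, hX, Matrix.mul_one, transpose_mul]
    _ = 1 := by rw [h1, transpose_one]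

theorem EH_inv (α β : Type) [Fintype α] [DecidableEq α] [Fintype β] [DecidableEq β] :
    ∃ X, EH α β * X = 1 := by
  have h1 : CartanMatrix.E₈ * Pool.Agent.Results.MP_69cf13_gt.EEightPlusTenH.Aux.E8inv = 1 := by
    decide +kernel
  have h2 : Hyp β * Hyp β = 1 := by
    unfold Hyp
    rw [fromBlocks_multiply]
    simp
  refine ⟨fromBlocks ((1 : Matrix α α ℤ) ⊗ₖ
    Pool.Agent.Results.MP_69cf13_gt.EEightPlusTenH.Aux.E8inv) 0 0 (Hyp β), ?_⟩
  unfold EH
  rw [fromBlocks_multiply, ← Matrix.mul_kronecker_mul, h1, h2]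
  simp

/-- multiplication by a class with form `kA E₈ ⊕ l H` -/
theorem add_step (ha : CONGA) (hb : CONGB) (hp : PRODA) (hc : CSIG) (ht : TSIG)
    {ι : Type} [Fintype ι] [LinearOrder ι] {kA : ℕ} (h8 : AData ι kA)
    {κ : Type} [Fintype κ] [LinearOrder κ] (wB : κ → κ → κ → κ → ℤ) (hB : Alt wB)
    (X : Matrix (P κ) (P κ) ℤ) (hX : gram wB * X = 1) (m : ℕ) (hm : Fintype.card κ = m + m) :
    ∃ w : ι ⊕ₗ κ → ι ⊕ₗ κ → ι ⊕ₗ κ → ι ⊕ₗ κ → ℤ,
      Alt w ∧ (∃ Y, gram w * Y = 1) ∧ signature (gram w) = 8 * kA + signature (gram wB) := by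
  obtain ⟨wA, σ, -, u, -, hA, tA, hσ, -, hu, -, h0, -, -⟩ := h8
  obtain ⟨a1, a2, a3, _, a5⟩ := ha
  -- a symplectic matrix on `κ`
  have hcard : Fintype.card κ = Fintype.card (Fin m ⊕ Fin m) := by
    rw [hm, Fintype.card_sum, Fintype.card_fin]
  let e0 : κ ≃ Fin m ⊕ Fin m := Fintype.equivOfCardEq hcard
  let τ : Matrix κ κ ℤ := (Pool.Agent.Y466.TW.J (Fin m)).submatrix e0 e0
  have hτ : SP τ := ⟨Fin m, _, _, (a2 _ _ _ e0).2⟩
  obtain ⟨p1, ⟨e, he⟩, _⟩ := hp ι κ wA wB σ τ hA hB hσ.skew hτ.skew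
  have b1 := a5 _ _ (gram wA) (gram wB) (TW.vec σ) u (TW.vec τ) hA.gram_symm hu h0
  have b2 := a3 _ _ _ _ _ _ (-(σ ⊗ₖ τ)) (-(σ ⊗ₖ τ)) b1
    (by simpa using (a2 _ _ (-(σ ⊗ₖ τ)) (Equiv.refl _)).1)
  have b3 := (a2 _ _ (fromBlocks (fromBlocks (gram wA) (vecMulVec (TW.vec σ) (TW.vec τ))
    (vecMulVec (TW.vec τ) (TW.vec σ)) (gram wB)) 0 0 (-(σ ⊗ₖ τ))) e).2
  rw [← he] at b3
  have b4 := a1 _ _ _ _ _ _ b3 b2
  -- reorder the summands
  set K := fromBlocks (gram wA) 0 0 (-(σ ⊗ₖ τ)) with hK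
  let e1 : (P ι ⊕ P κ) ⊕ (ι × κ) ≃ P κ ⊕ (P ι ⊕ (ι × κ)) :=
    { toFun := fun x => match x with
        | .inl (.inl a) => .inr (.inl a)
        | .inl (.inr b) => .inl b
        | .inr c => .inr (.inr c)
      invFun := fun x => match x with
        | .inl b => .inl (.inr b)
        | .inr (.inl a) => .inl (.inl a)
        | .inr (.inr c) => .inr c
      left_inv := by rintro ((a | b) | c) <;> rfl
      right_inv := by rintro (b | (a | c)) <;> rfl }
  have hre : fromBlocks (fromBlocks (gram wA) 0 0 (gram wB)) 0 0 (-(σ ⊗ₖ τ)) =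
      (fromBlocks (gram wB) 0 0 K).submatrix e1 e1 := by
    ext i j
    rcases i with (i | i) | i <;> rcases j with (j | j) | j <;> rfl
  have b5 : Cong (gram (prodL wA wB σ τ)) (fromBlocks (gram wB) 0 0 K) := by
    rw [hre] at b4
    exact a1 _ _ _ _ _ _ b4 (a2 _ _ _ e1).2
  have tK : Typ K kA := hb.2 _ _ _ _ _ _ _ tA hσ hτ
  obtain ⟨α, β, _, _, _, _, hα, cK⟩ := tK
  have sK : signature K = 8 * kA := by
    rw [hc _ _ _ _ cK, ht, hα]
  obtain ⟨Y, hY⟩ := inv_of_cong cK (EH_inv α β)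
  have hsB : (gram wB).IsSymm := hB.gram_symm
  have hsA : (gram wA).IsSymm := hA.gram_symm
  have hσs : ∀ i j, σ j i = -σ i j := fun i j => congrFun (congrFun hσ.skew i) j
  have hτs : ∀ i j, τ j i = -τ i j := fun i j => congrFun (congrFun hτ.skew i) j
  have hsK : K.IsSymm := by
    unfold Matrix.IsSymm
    rw [hK, fromBlocks_transpose, hsA]
    have h9 : (-(σ ⊗ₖ τ))ᵀ = -(σ ⊗ₖ τ) := by
      ext ⟨i, k⟩ ⟨j, l⟩
      simp only [transpose_apply, neg_apply, Matrix.kroneckerMap_apply]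
      rw [hσs i j, hτs k l]
      ring
    rw [h9]
    simp
  have dB : (gram wB).det ≠ 0 := by
    intro h
    have := det_of_inv hX
    rw [h] at this
    norm_num at this
  have dK : K.det ≠ 0 := by
    intro h
    have := det_of_inv hY
    rw [h] at this
    norm_num at this
  refine ⟨prodL wA wB σ τ, p1, ?_, ?_⟩
  · refine inv_of_cong b5 ⟨fromBlocks X 0 0 Y, ?_⟩
    rw [fromBlocks_multiply, hX, hY]
    simp
  · rw [hc _ _ _ _ b5]
    have h9 : signature (fromBlocks (gram wB) 0 0 K) = signature (gram wB) + signature K :=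
      Pool.Agent.Y466.KS.sig_blocks _ _ hsB hsK dB dK
    rw [h9, sK]
    ring

/-- the class on `m = 12 s` blocks -/
theorem even_class (hd : DEC) (hp : PUR) (hm : MIX) (hs : SIG) (s : ℕ) (h1 : 1 ≤ s) :
    Alt (w (12 * s)) ∧ (∃ X, gram (w (12 * s)) * X = 1) ∧
      ((48 * s : ℕ) : ℤ) ^ 2 - 10 * ((48 * s : ℕ) : ℤ) ≤ 4 * signature (gram (w (12 * s))) := by
  obtain ⟨hA, e, he⟩ := hd (12 * s)
  obtain ⟨X, hX⟩ := hp (12 * s) ⟨s, rfl⟩
  obtain ⟨⟨Y, hY⟩, Q, d, hd0, hQ⟩ := hm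
  set D := fromBlocks (Pu (12 * s)) 0 0 ((1 : Matrix (B (12 * s)) (B (12 * s)) ℤ) ⊗ₖ M) with hD
  have hDX : D * fromBlocks X 0 0 ((1 : Matrix (B (12 * s)) (B (12 * s)) ℤ) ⊗ₖ Y) = 1 := by
    rw [hD, fromBlocks_multiply, ← Matrix.mul_kronecker_mul, hX, hY]
    simp
  refine ⟨hA, ⟨(fromBlocks X 0 0 ((1 : Matrix (B (12 * s)) (B (12 * s)) ℤ) ⊗ₖ Y)).submatrix e e,
    ?_⟩, ?_⟩
  · rw [he, submatrix_mul_equiv, hDX, submatrix_one_equiv]
  · rw [he, sub _ _ D e]
    have h6 := hs (Fin (12 * s) × Fin 6) (B (12 * s)) (Pu (12 * s)) Q d hd0 hQ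
    rw [← hD] at h6
    have h7 : Fintype.card (B (12 * s)) = (12 * s).choose 2 := Pool.Agent.Y465.TW.card_P (12 * s)
    rw [h7, Fintype.card_prod, Fintype.card_fin, Fintype.card_fin] at h6
    have h8 : 2 * (12 * s).choose 2 = 12 * s * (12 * s - 1) := by
      rw [Nat.choose_two_right]
      exact Nat.mul_div_cancel' (Nat.even_mul_pred_self (12 * s)).two_dvd
    have h9 : (2 : ℤ) * ((12 * s).choose 2 : ℕ) = 12 * s * (12 * s - 1) := by
      have h10 : ((12 * s - 1 : ℕ) : ℤ) = 12 * s - 1 := by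
        rw [Nat.cast_sub (by omega)]
        push_cast
        ring
      have h11 := congrArg (Nat.cast : ℕ → ℤ) h8
      rw [Nat.cast_mul, Nat.cast_mul, Nat.cast_mul, h10] at h11
      push_cast at h11
      exact h11
    push_cast at h6 ⊢
    nlinarith

/-- the classes with form `k E₈ ⊕ l H` -/
theorem base_class (hc : CSIG) (ht : TSIG) {ι : Type} [Fintype ι] [LinearOrder ι] {k : ℕ}
    (h : AData ι k) : ∃ w : ι → ι → ι → ι → ℤ,
      Alt w ∧ (∃ Y, gram w * Y = 1) ∧ signature (gram w) = 8 * k := by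
  obtain ⟨wA, _, _, _, _, hA, ⟨α, β, _, _, _, _, hα, cK⟩, _⟩ := h
  exact ⟨wA, hA, inv_of_cong cK (EH_inv α β), by rw [hc _ _ _ _ cK, ht, hα]⟩

/-- classes with signature `8 k`, `k` odd, of quadratic size -/
theorem main (ha : CONGA) (hb : CONGB) (hpr : PRODA) (hst : STEP) (h8 : TEIGHT) (hc : CSIG)
    (ht : TSIG) (hd : DEC) (hp : PUR) (hm : MIX) (hs : SIG) (hf : FIN) (n : ℕ) (h4 : 4 ∣ n)
    (hn : 8 ≤ n) :
    ∃ ω ∈ H n (n - 4), ∃ φ : Coh n → Coh n → ℤ,
      IsFormOf (H n 2) ω (T n) φ ∧ ∃ b : Fin (n.choose 2) → Coh n, IsZBasis (H n 2) b ∧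
        |(Matrix.of fun i j => φ (b i) (b j)).det| = 1 ∧ ∃ k : ℤ, Odd k ∧
          signature (Matrix.of fun i j => φ (b i) (b j)) = 8 * k ∧
          (n : ℤ) ^ 2 - 130 * n ≤ 32 * k := by
  rcases Nat.lt_or_ge n 64 with hlt | hge
  · obtain ⟨ι, _, _, hcard, hAD⟩ := Pool.Agent.Y466.TW.exists_data hst h8 1 ((n - 8) / 4) le_rfl
    obtain ⟨w', hA', ⟨Y, hY⟩, hsig'⟩ := base_class hc ht hAD
    have hcard' : Fintype.card ι = n := by omega
    obtain ⟨ω', hω', φ', hφ', b', hbb', hdet', hs2', _⟩ := gen hf n (by omega) hcard' w' hA' Y hY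
    refine ⟨ω', hω', φ', hφ', b', hbb', hdet', 1, odd_one, ?_, ?_⟩
    · rw [hs2', hsig']
      norm_num
    · have h1 : (n : ℤ) < 64 := by exact_mod_cast hlt
      have h2 : (0 : ℤ) ≤ n := Int.natCast_nonneg n
      nlinarith
  · obtain ⟨s, hs'⟩ : ∃ s, s = (n - 16) / 48 := ⟨_, rfl⟩
    have h1 : 1 ≤ s := by omega
    obtain ⟨hA, ⟨X, hX⟩, hsig⟩ := even_class hd hp hm hs s h1
    have hcard : Fintype.card (I (12 * s)) = 48 * s := by
      have : Fintype.card (I (12 * s)) = Fintype.card (Fin (12 * s) × Fin 4) := rfl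
      rw [this, Fintype.card_prod, Fintype.card_fin, Fintype.card_fin]
      ring
    obtain ⟨_, _, _, _, _, _, _, _, k, hk⟩ := gen hf (48 * s) (by omega) hcard _ hA X hX
    -- the parity of the first factor
    obtain ⟨kA, hkA1, hkA2, hodd⟩ : ∃ kA : ℕ, 1 ≤ kA ∧ kA ≤ 2 ∧ Odd ((kA : ℤ) + k) := by
      rcases Int.even_or_odd k with hev | hodd
      · exact ⟨1, le_rfl, by norm_num, by
          rw [add_comm]
          exact_mod_cast hev.add_one⟩
      · exact ⟨2, by norm_num, le_rfl, by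
          rw [add_comm]
          exact_mod_cast hodd.add_even (by decide : Even (2 : ℤ))⟩
    obtain ⟨ι, _, _, hcardι, hAD⟩ :=
      Pool.Agent.Y466.TW.exists_data hst h8 kA ((n - 48 * s - 8 * kA) / 4) hkA1
    obtain ⟨w', hA', ⟨Y, hY⟩, hsig'⟩ := add_step ha hb hpr hc ht hAD _ hA X hX (24 * s)
      (by rw [hcard]; ring)
    have hcard' : Fintype.card (ι ⊕ₗ I (12 * s)) = n := by
      have : Fintype.card (ι ⊕ₗ I (12 * s)) = Fintype.card (ι ⊕ I (12 * s)) := rfl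
      rw [this, Fintype.card_sum, hcard, hcardι]
      omega
    obtain ⟨ω', hω', φ', hφ', b', hbb', hdet', hs2', _⟩ :=
      gen hf n (by omega) hcard' w' hA' Y hY
    refine ⟨ω', hω', φ', hφ', b', hbb', hdet', kA + k, hodd, ?_, ?_⟩
    · rw [hs2']
      refine (sig_inst _ _ _ _ _).trans (hsig'.trans ?_)
      rw [hk]
      ring
    · rw [hk] at hsig
      have h5 : (n : ℤ) - 60 ≤ 48 * s := by omega
      have h6 : (48 : ℤ) ≤ 48 * s := by omega
      have h7 : (64 : ℤ) ≤ n := by exact_mod_cast hge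
      have h8 : (1 : ℤ) ≤ kA := by exact_mod_cast hkA1
      push_cast at hsig
      have h9 : 0 ≤ (48 * (s : ℤ) - (n - 60)) * (48 * s + (n - 60) - 10) :=
        mul_nonneg (by linarith) (by linarith)
      nlinarith

end Pool.Agent.Y466.TQ
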