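import Pool.Agent.Y466.TW.Stm

/-! # Unimodular classes on tori with quadratically growing signature: definitions, jobs TQ-* -/

set_option autoImplicit false
set_option synthInstance.maxSize 100000

namespace Pool.Agent.Y466.TQ

open Matrix
open scoped Kronecker
open Pool.Agent.Y466.TW (P Alt gram)

/-- the matrix of the mixed terms, indexed by the pairs 01, 02, 03, 12, 13, 23 -/
def C : Matrix (Fin 6) (Fin 6) ℤ :=
  !![1, 0, 0, 0, 0, 1; 0, 1, 1, 0, -1, 0; 0, 0, 2, 1, 0, 0; 0, 0, 1, 1, 0, 0;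
    1, -1, 0, 0, 2, 0; 1, 0, 1, 1, 0, 2]

/-- the `p`-th elementary skew form on `Z^4`, `p` = 01, 02, 03, 12, 13, 23 -/
def sk (p : Fin 6) (x y : Fin 4) : ℤ :=
  let a : Fin 6 → Fin 4 := ![0, 0, 0, 1, 1, 2]
  let b : Fin 6 → Fin 4 := ![1, 2, 3, 2, 3, 3]
  if x = a p ∧ y = b p then 1 else if x = b p ∧ y = a p then -1 else 0

/-- the form `∑ C p q · p ⊗ q` on pairs of indices -/
def c4 (x y z t : Fin 4) : ℤ := ∑ p, ∑ q, C p q * sk p x y * sk q z t

/-- the index set: `m` blocks of four indices -/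
abbrev I (m : ℕ) := Fin m ×ₗ Fin 4

/-- the mixed term `(a, b | c, d)`: `a, b` in one block, `c, d` in another one -/
def E {m : ℕ} (a b c d : I m) : ℤ :=
  if (ofLex a).1 = (ofLex b).1 ∧ (ofLex c).1 = (ofLex d).1 then
    if (ofLex a).1 < (ofLex c).1 then c4 (ofLex a).2 (ofLex b).2 (ofLex c).2 (ofLex d).2
    else if (ofLex c).1 < (ofLex a).1 then c4 (ofLex c).2 (ofLex d).2 (ofLex a).2 (ofLex b).2
    else 0
  else 0

/-- the antisymmetric function on `m` blocks -/
def w (m : ℕ) (a b c d : I m) : ℤ := E a b c d - E a c b d + E a d b c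

/-- the part of the Gram matrix of the pairs inside of the blocks -/
def Pu (m : ℕ) : Matrix (Fin m × Fin 6) (Fin m × Fin 6) ℤ := fun p q =>
  if p.1 < q.1 then C p.2 q.2 else if q.1 < p.1 then C q.2 p.2 else 0

/-- the part of the Gram matrix of the pairs between two blocks -/
def M : Matrix (Fin 4 × Fin 4) (Fin 4 × Fin 4) ℤ := fun p q => -c4 p.1 q.1 p.2 q.2

/-- pairs of blocks -/
abbrev B (m : ℕ) := {p : Fin m × Fin m // p.1 < p.2}

/-- TQ-DEC: antisymmetry and the Gram matrix -/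
def DEC : Prop := ∀ m : ℕ, Alt (w m) ∧
  ∃ e : P (I m) ≃ (Fin m × Fin 6) ⊕ (B m × (Fin 4 × Fin 4)),
    gram (w m) = (fromBlocks (Pu m) 0 0 ((1 : Matrix (B m) (B m) ℤ) ⊗ₖ M)).submatrix e e

/-- TQ-PUR: the first part is invertible when `12 ∣ m` -/
def PUR : Prop := ∀ m : ℕ, 12 ∣ m → ∃ X : Matrix (Fin m × Fin 6) (Fin m × Fin 6) ℤ, Pu m * X = 1

/-- TQ-MIX: the second part is invertible and positive definite on a subspace of dimension 12 -/
def MIX : Prop := (∃ X : Matrix (Fin 4 × Fin 4) (Fin 4 × Fin 4) ℤ, M * X = 1) ∧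
  ∃ (Q : Matrix (Fin 4 × Fin 4) (Fin 12) ℤ) (d : Fin 12 → ℤ), (∀ i, 0 < d i) ∧
    Qᵀ * M * Q = diagonal d

/-- the signature of a symmetric integer matrix: the number of positive minus the number of
negative squares of the real quadratic form `x ↦ xᵀ A x` -/
noncomputable def signature {ι : Type} [Fintype ι] [DecidableEq ι] (A : Matrix ι ι ℤ) : ℤ :=
  (sigPos (A.map (Int.cast : ℤ → ℝ)).toQuadraticForm' : ℤ) -
    (sigNeg (A.map (Int.cast : ℤ → ℝ)).toQuadraticForm' : ℤ)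

/-- TQ-SIG: a lower bound for the signature -/
def SIG : Prop :=
  ∀ (α β : Type) [Fintype α] [DecidableEq α] [Fintype β] [DecidableEq β] (A : Matrix α α ℤ)
    (Q : Matrix (Fin 4 × Fin 4) (Fin 12) ℤ) (d : Fin 12 → ℤ), (∀ i, 0 < d i) →
    Qᵀ * M * Q = diagonal d →
    8 * (Fintype.card β : ℤ) - Fintype.card α ≤
      signature (fromBlocks A 0 0 ((1 : Matrix β β ℤ) ⊗ₖ M))

/-- TQ-SUB: the signature does not depend on the names of the indices -/
def SUB : Prop :=
  ∀ (α β : Type) [Fintype α] [DecidableEq α] [Fintype β] [DecidableEq β] (A : Matrix α α ℤ)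
    (e : β ≃ α), signature (A.submatrix e e) = signature A

open Pool.Agent.Results.MP_69cf13_gt.EEightPlusTenH in
/-- TQ-FIN: from the antisymmetric function to the class -/
def FIN : Prop :=
  ∀ (n : ℕ) (w : Fin n → Fin n → Fin n → Fin n → ℤ), 4 ≤ n → Alt w →
    (∃ X : Matrix (P (Fin n)) (P (Fin n)) ℤ, gram w * X = 1) →
    ∃ ω ∈ H n (n - 4), ∃ φ : Coh n → Coh n → ℤ, IsFormOf (H n 2) ω (T n) φ ∧
      ∃ (b : Fin (n.choose 2) → Coh n) (e : Fin (n.choose 2) ≃ P (Fin n)),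
        IsZBasis (H n 2) b ∧ ∀ i j, φ (b i) (b j) = gram w (e i) (e j)

end Pool.Agent.Y466.TQ
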