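import Pool.Agent.Y466.TQ.Stm

/-! # Signatures of congruent matrices: statements of the jobs TQ-CSIG, TQ-TSIG -/

set_option autoImplicit false

namespace Pool.Agent.Y466.TQ

open Matrix
open Pool.Agent.Y466.TW (Cong Typ EH Hyp)

/-- TQ-CSIG: congruent matrices have the same signature -/
def CSIG : Prop :=
  ∀ (α β : Type) [Fintype α] [DecidableEq α] [Fintype β] [DecidableEq β] (G : Matrix α α ℤ)
    (G' : Matrix β β ℤ), Cong G G' → signature G = signature G'

/-- TQ-TSIG: the signature of `k E₈ ⊕ l H` -/
def TSIG : Prop :=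
  ∀ (α β : Type) [Fintype α] [DecidableEq α] [Fintype β] [DecidableEq β],
    signature (EH α β) = 8 * Fintype.card α

end Pool.Agent.Y466.TQ
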